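import Pool.Agent.Helper26.LU.Goals

/-!
# PACKET LU-E11: the equation of weight 2
-/

namespace Pool.Agent.Helper97.LU

open MeasureTheory Matrix Real Filter Topology Pool.Agent.Helper26.LU

theorem ph_near (N M : ℕ) : ∃ K : ℝ, 0 ≤ K ∧ ∀ a : Idx N → ℝ, ‖a‖ ≤ 1 → ∀ R ∈ SO3,
    |Ph M a R - ∑ j, ev a (R *ᵥ e j)| ≤ K * ‖a‖ ^ 2 := by
  obtain ⟨C, hC, hT⟩ := Ti_bound N M
  set B : ℝ := 1 + C with hB
  have hB1 : 1 ≤ B := by linarith
  set K1 : ℝ := Fintype.card (Idx N) * (3 * (N : ℝ) * B ^ (3 * N)) with hK1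
  set K2 : ℝ := Fintype.card (Idx N) * B ^ N with hK2
  have hK1' : 0 ≤ K1 := by positivity
  have hK2' : 0 ≤ K2 := by positivity
  refine ⟨4 * (K1 * C) + 6 * K2 ^ 2, by positivity, fun a ha R hR => ?_⟩
  have ha0 := norm_nonneg a
  have hTi := hT a ha R hR
  have hx : ∀ j, ‖R *ᵥ e j‖ ≤ B := fun j => (norm_mulVec_e hR j).trans hB1
  have hy : ∀ j, ‖R *ᵥ e j + Ti a R M‖ ≤ B := by
    intro j
    refine (norm_add_le _ _).trans ?_
    have := norm_mulVec_e hR j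
    nlinarith
  have hFv : ∀ j, Fv M a R j = ev a (R *ᵥ e j + Ti a R M) := fun j => rfl
  have h1 : ∀ j, |Fv M a R j - ev a (R *ᵥ e j)| ≤ K1 * C * ‖a‖ ^ 2 := by
    intro j
    rw [hFv]
    refine (ev_lip a hB1 (hy j) (hx j)).trans ?_
    rw [add_sub_cancel_left]
    calc K1 * ‖a‖ * ‖Ti a R M‖ ≤ K1 * ‖a‖ * (C * ‖a‖) :=
          mul_le_mul_of_nonneg_left hTi (by positivity)
      _ = K1 * C * ‖a‖ ^ 2 := by ring
  have h2 : ∀ j, |Fv M a R j| ≤ K2 * ‖a‖ := fun j => by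
    rw [hFv]; exact ev_bound a hB1 (hy j)
  have h3 : ∀ j, Fv M a R j ^ 2 ≤ (K2 * ‖a‖) ^ 2 := fun j => by
    rw [← sq_abs]
    exact pow_le_pow_left₀ (abs_nonneg _) (h2 j) 2
  have hS1 : ∑ j, Fv M a R j ^ 2 ≤ 4 * (K2 * ‖a‖) ^ 2 := by
    calc ∑ j, Fv M a R j ^ 2 ≤ ∑ _j : Fin 4, (K2 * ‖a‖) ^ 2 := Finset.sum_le_sum fun j _ => h3 j
      _ = 4 * (K2 * ‖a‖) ^ 2 := by simp
  have hS10 : 0 ≤ ∑ j, Fv M a R j ^ 2 := Finset.sum_nonneg fun j _ => sq_nonneg _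
  have hS : |∑ j, Fv M a R j| ≤ 4 * (K2 * ‖a‖) := by
    refine (Finset.abs_sum_le_sum_abs _ _).trans ?_
    calc ∑ j, |Fv M a R j| ≤ ∑ _j : Fin 4, K2 * ‖a‖ := Finset.sum_le_sum fun j _ => h2 j
      _ = 4 * (K2 * ‖a‖) := by simp
  have hS2 : (∑ j, Fv M a R j) ^ 2 ≤ 16 * (K2 * ‖a‖) ^ 2 := by
    rw [← sq_abs]
    calc |∑ j, Fv M a R j| ^ 2 ≤ (4 * (K2 * ‖a‖)) ^ 2 := pow_le_pow_left₀ (abs_nonneg _) hS 2
      _ = 16 * (K2 * ‖a‖) ^ 2 := by ring
  have hS20 : 0 ≤ (∑ j, Fv M a R j) ^ 2 := sq_nonneg _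
  have hdiff : |∑ j, Fv M a R j - ∑ j, ev a (R *ᵥ e j)| ≤ 4 * (K1 * C * ‖a‖ ^ 2) := by
    rw [← Finset.sum_sub_distrib]
    refine (Finset.abs_sum_le_sum_abs _ _).trans ?_
    calc ∑ j, |Fv M a R j - ev a (R *ᵥ e j)| ≤ ∑ _j : Fin 4, K1 * C * ‖a‖ ^ 2 :=
          Finset.sum_le_sum fun j _ => h1 j
      _ = 4 * (K1 * C * ‖a‖ ^ 2) := by simp
  have hPh : Ph M a R = ∑ j, Fv M a R j - (3 / 16 : ℝ) *
      (4 * ∑ j, Fv M a R j ^ 2 - (∑ j, Fv M a R j) ^ 2) := rfl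
  have e1 : Ph M a R - ∑ j, ev a (R *ᵥ e j) = (∑ j, Fv M a R j - ∑ j, ev a (R *ᵥ e j))
      - (3 / 16 : ℝ) * (4 * ∑ j, Fv M a R j ^ 2 - (∑ j, Fv M a R j) ^ 2) := by
    rw [hPh]; ring
  have e2 : |(3 / 16 : ℝ) * (4 * ∑ j, Fv M a R j ^ 2 - (∑ j, Fv M a R j) ^ 2)|
      ≤ 6 * K2 ^ 2 * ‖a‖ ^ 2 := by
    rw [abs_le]
    have e3 : (K2 * ‖a‖) ^ 2 = K2 ^ 2 * ‖a‖ ^ 2 := by ring
    rw [e3] at hS1 hS2
    have e4 : 0 ≤ K2 ^ 2 * ‖a‖ ^ 2 := by positivity
    constructor <;> linarith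
  rw [e1]
  refine (abs_sub _ _).trans ?_
  calc _ ≤ 4 * (K1 * C * ‖a‖ ^ 2) + 6 * K2 ^ 2 * ‖a‖ ^ 2 := add_le_add hdiff e2
    _ = (4 * (K1 * C) + 6 * K2 ^ 2) * ‖a‖ ^ 2 := by ring

/-- The sum over the vertices of a monomial of degree one vanishes. -/
theorem sum_mon_one {N : ℕ} (t : Idx N) (ht : dg t = 1) (R : M3) :
    ∑ j, mon t (R *ᵥ e j) = 0 := by
  have hz : ∑ j, R *ᵥ e j = 0 := by
    rw [← Matrix.mulVec_sum, e_sum, Matrix.mulVec_zero]
  have hzi : ∀ i, ∑ j, (R *ᵥ e j) i = 0 := by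
    intro i
    have := congrFun hz i
    simpa [Finset.sum_apply] using this
  have h : ((t.1.1 : ℕ) = 1 ∧ (t.1.2.1 : ℕ) = 0 ∧ (t.1.2.2 : ℕ) = 0) ∨
      ((t.1.1 : ℕ) = 0 ∧ (t.1.2.1 : ℕ) = 1 ∧ (t.1.2.2 : ℕ) = 0) ∨
      ((t.1.1 : ℕ) = 0 ∧ (t.1.2.1 : ℕ) = 0 ∧ (t.1.2.2 : ℕ) = 1) := by
    unfold dg at ht
    omega
  rcases h with ⟨h1, h2, h3⟩ | ⟨h1, h2, h3⟩ | ⟨h1, h2, h3⟩
  · simp only [mon, h1, h2, h3, pow_one, pow_zero, mul_one]
    exact hzi 0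
  · simp only [mon, h1, h2, h3, pow_one, pow_zero, mul_one, one_mul]
    exact hzi 1
  · simp only [mon, h1, h2, h3, pow_one, pow_zero, one_mul]
    exact hzi 2

theorem mon_zero_deg {N : ℕ} (t : Idx N) (ht : dg t = 0) (x : V) : mon t x = 1 := by
  have h : (t.1.1 : ℕ) = 0 ∧ (t.1.2.1 : ℕ) = 0 ∧ (t.1.2.2 : ℕ) = 0 := by
    unfold dg at ht
    omega
  simp only [mon, h.1, h.2.1, h.2.2, pow_zero, mul_one]

theorem gE11 : G_E11 := by
  intro N M C s ah as hN hs hs0 hah hPh R hR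
  obtain ⟨K, hK, hnear⟩ := ph_near N M
  -- the limit
  have hlim : Tendsto (fun k => ∑ t : Idx N, s k ^ (wt t - 2) * ah k t * ∑ j, mon t (R *ᵥ e j))
      atTop (𝓝 (∑ t : Idx N, (if wt t = 2 then 1 else 0) * as t * ∑ j, mon t (R *ᵥ e j))) := by
    refine tendsto_finset_sum _ fun t _ => ?_
    refine Tendsto.mul_const _ (Tendsto.mul ?_ ?_)
    · split_ifs with h
      · rw [h]; simpa using tendsto_const_nhds
      · have h2 : wt t - 2 ≠ 0 := by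
          have : 2 ≤ wt t := le_max_left _ _
          omega
        have := hs0.pow (wt t - 2)
        rwa [zero_pow h2] at this
    · exact (tendsto_pi_nhds.1 hah) t
  -- it is zero
  have hzero : Tendsto (fun k => ∑ t : Idx N, s k ^ (wt t - 2) * ah k t * ∑ j, mon t (R *ᵥ e j))
      atTop (𝓝 0) := by
    have hev1 : ∀ᶠ k in atTop, s k ≤ 1 := hs0.eventually (eventually_le_nhds (by norm_num))
    have hnorm : Tendsto (fun k => ‖ah k‖) atTop (𝓝 ‖as‖) := hah.norm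
    have hev2 : ∀ᶠ k in atTop, ‖ah k‖ ≤ ‖as‖ + 1 :=
      hnorm.eventually (eventually_le_nhds (by linarith))
    have hsq : Tendsto (fun k => (‖as‖ + 1) * s k ^ 2) atTop (𝓝 0) := by
      have := (hs0.pow 2).const_mul (‖as‖ + 1)
      simpa using this
    have hev3 : ∀ᶠ k in atTop, (‖as‖ + 1) * s k ^ 2 ≤ 1 :=
      hsq.eventually (eventually_le_nhds (by norm_num))
    have hbound : ∀ᶠ k in atTop,
        ‖∑ t : Idx N, s k ^ (wt t - 2) * ah k t * ∑ j, mon t (R *ᵥ e j)‖ ≤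
          (|C| + K * (‖as‖ + 1) ^ 2) * s k := by
      filter_upwards [hev1, hev2, hev3] with k h1 h2 h3
      have hsk := hs k
      set a : Idx N → ℝ := fun α => s k ^ wt α * ah k α with ha
      have hna : ‖a‖ ≤ (‖as‖ + 1) * s k ^ 2 := by
        rw [pi_norm_le_iff_of_nonneg (by positivity)]
        intro t
        simp only [ha]
        rw [norm_mul, norm_pow, Real.norm_eq_abs, abs_of_pos hsk]
        have h4 : s k ^ wt t ≤ s k ^ 2 := pow_le_pow_of_le_one hsk.le h1 (le_max_left _ _)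
        have h5 : ‖ah k t‖ ≤ ‖as‖ + 1 := (norm_le_pi_norm _ t).trans h2
        calc s k ^ wt t * ‖ah k t‖ ≤ s k ^ 2 * (‖as‖ + 1) :=
              mul_le_mul h4 h5 (norm_nonneg _) (by positivity)
          _ = (‖as‖ + 1) * s k ^ 2 := by ring
      have hna1 : ‖a‖ ≤ 1 := hna.trans h3
      have h6 := hnear a hna1 R hR
      have h7 := hPh k R hR
      have h8 : |∑ j, ev a (R *ᵥ e j)| ≤ (|C| + K * (‖as‖ + 1) ^ 2) * s k ^ 3 := by
        have e1 : ∑ j, ev a (R *ᵥ e j) = Ph M a R - (Ph M a R - ∑ j, ev a (R *ᵥ e j)) := by ring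
        rw [e1]
        refine (abs_sub _ _).trans ?_
        have e2 : C * s k ^ (N + 1) ≤ |C| * s k ^ 3 := by
          have e3 : s k ^ (N + 1) ≤ s k ^ 3 := pow_le_pow_of_le_one hsk.le h1 (by omega)
          calc C * s k ^ (N + 1) ≤ |C| * s k ^ (N + 1) :=
                mul_le_mul_of_nonneg_right (le_abs_self _) (by positivity)
            _ ≤ |C| * s k ^ 3 := mul_le_mul_of_nonneg_left e3 (abs_nonneg _)
        have e4 : K * ‖a‖ ^ 2 ≤ K * (‖as‖ + 1) ^ 2 * s k ^ 3 := by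
          have e5 : ‖a‖ ^ 2 ≤ ((‖as‖ + 1) * s k ^ 2) ^ 2 := pow_le_pow_left₀ (norm_nonneg _) hna 2
          have e6 : s k ^ 4 ≤ s k ^ 3 := pow_le_pow_of_le_one hsk.le h1 (by omega)
          calc K * ‖a‖ ^ 2 ≤ K * ((‖as‖ + 1) * s k ^ 2) ^ 2 := mul_le_mul_of_nonneg_left e5 hK
            _ = K * (‖as‖ + 1) ^ 2 * s k ^ 4 := by ring
            _ ≤ K * (‖as‖ + 1) ^ 2 * s k ^ 3 := mul_le_mul_of_nonneg_left e6 (by positivity)
        calc |Ph M a R| + |Ph M a R - ∑ j, ev a (R *ᵥ e j)|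
            ≤ |C| * s k ^ 3 + K * (‖as‖ + 1) ^ 2 * s k ^ 3 :=
              add_le_add (h7.trans e2) (h6.trans e4)
          _ = _ := by ring
      have h9 : ∑ j, ev a (R *ᵥ e j) =
          s k ^ 2 * ∑ t : Idx N, s k ^ (wt t - 2) * ah k t * ∑ j, mon t (R *ᵥ e j) := by
        unfold ev
        rw [Finset.sum_comm, Finset.mul_sum]
        refine Finset.sum_congr rfl fun t _ => ?_
        rw [← Finset.mul_sum]
        have h10 : s k ^ wt t = s k ^ 2 * s k ^ (wt t - 2) := by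
          rw [← pow_add]
          congr 1
          have : 2 ≤ wt t := le_max_left _ _
          omega
        simp only [ha]
        rw [h10]
        ring
      rw [h9, abs_mul, abs_of_pos (by positivity : 0 < s k ^ 2)] at h8
      have h11 : s k ^ 2 * |∑ t : Idx N, s k ^ (wt t - 2) * ah k t * ∑ j, mon t (R *ᵥ e j)| ≤
          s k ^ 2 * ((|C| + K * (‖as‖ + 1) ^ 2) * s k) := by
        calc _ ≤ _ := h8
          _ = _ := by ring
      rw [Real.norm_eq_abs]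
      exact le_of_mul_le_mul_left h11 (by positivity)
    have hr : Tendsto (fun k => (|C| + K * (‖as‖ + 1) ^ 2) * s k) atTop (𝓝 0) := by
      simpa using hs0.const_mul (|C| + K * (‖as‖ + 1) ^ 2)
    exact squeeze_zero_norm' hbound hr
  have hmain := tendsto_nhds_unique hlim hzero
  -- rewrite the limit
  have hwt : ∀ t : Idx N, wt t = 2 ↔ dg t = 0 ∨ dg t = 1 ∨ dg t = 2 := by
    intro t
    unfold wt
    omega
  have e1 : ∀ t : Idx N, (if wt t = 2 then (1 : ℝ) else 0) * as t * ∑ j, mon t (R *ᵥ e j) =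
      (if dg t = 0 then 4 * as t else 0) +
        (if dg t = 2 then as t * ∑ j, mon t (R *ᵥ e j) else 0) := by
    intro t
    by_cases h0 : dg t = 0
    · have h2 : dg t ≠ 2 := by omega
      rw [if_pos ((hwt t).2 (Or.inl h0)), if_pos h0, if_neg h2]
      simp only [mon_zero_deg t h0]
      simp
      ring
    · by_cases h1 : dg t = 1
      · have h2 : dg t ≠ 2 := by omega
        rw [if_pos ((hwt t).2 (Or.inr (Or.inl h1))), if_neg h0, if_neg h2, sum_mon_one t h1]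
        simp
      · by_cases h2 : dg t = 2
        · rw [if_pos ((hwt t).2 (Or.inr (Or.inr h2))), if_neg h0, if_pos h2]
          ring
        · have h3 : wt t ≠ 2 := fun h => by
            rcases (hwt t).1 h with h | h | h
            · exact h0 h
            · exact h1 h
            · exact h2 h
          rw [if_neg h3, if_neg h0, if_neg h2]
          ring
  rw [Finset.sum_congr rfl fun t _ => e1 t, Finset.sum_add_distrib, ← Finset.sum_filter,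
    ← Finset.sum_filter, ← Finset.mul_sum] at hmain
  rw [← hmain]
  congr 1
  rw [Finset.sum_comm]
  refine Finset.sum_congr rfl fun t _ => ?_
  rw [Finset.mul_sum]

end Pool.Agent.Helper97.LU
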